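import Pool.Agent.helper37.L5.Spec

/-!
# Row l5:DCT5 (MP_baa4d7_al, project L5): a double coset `N g₀ T`
-/

set_option autoImplicit false

namespace Pool.Agent.L5

open Pool.Agent.helper58.DC Pool.Agent.DI Pool.Agent.GR Pool.Agent.OB Pool.Agent.DR Pool.Agent.FI Pool.Agent.FI3 Pool.Agent.FI4 Pool.Agent.FI4I Pool.Agent.LE

theorem DCT5 : DCT5_stmt := by
  classical
  intro G _ _ T N g₀
  set A : Set G := {g : G | ∃ n ∈ N, ∃ t ∈ T, g = n * g₀ * t} with hA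
  let f : N × T → A := fun x => ⟨x.1 * g₀ * x.2, ⟨x.1, x.1.2, x.2, x.2.2, rfl⟩⟩
  have fib : ∀ a : A, Nonempty ({x // f x = a} ≃ (N ⊓ cjS g₀ T : Subgroup G)) := by
    rintro ⟨g, hg⟩
    obtain ⟨n₀, hn₀, m₀, hm₀, e₀⟩ := hg
    refine ⟨⟨fun x => ⟨n₀⁻¹ * x.1.1, ?_⟩, fun k => ⟨(⟨n₀ * k, mul_mem hn₀ k.2.1⟩, ⟨g₀⁻¹ * (k : G)⁻¹ * g₀ * m₀, ?_⟩), ?_⟩, ?_, ?_⟩⟩
    · obtain ⟨⟨⟨n, hn⟩, ⟨m, hm⟩⟩, hx⟩ := x
      have hx' : n * g₀ * m = g := congrArg Subtype.val hx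
      refine Subgroup.mem_inf.2 ⟨mul_mem (inv_mem hn₀) hn, ?_⟩
      rw [mem_cjS]
      have e1 : g₀⁻¹ * (n₀⁻¹ * n) * g₀ = m₀ * m⁻¹ := by
        have e2 : n = n₀ * g₀ * m₀ * m⁻¹ * g₀⁻¹ := by
          rw [← e₀, ← hx']
          group
        rw [e2]
        group
      show g₀⁻¹ * (n₀⁻¹ * n) * g₀ ∈ T
      rw [e1]
      exact mul_mem hm₀ (inv_mem hm)
    · refine mul_mem ?_ hm₀
      have h1 := inv_mem (mem_cjS.1 k.2.2)
      have e1 : (g₀⁻¹ * (k : G) * g₀)⁻¹ = g₀⁻¹ * (k : G)⁻¹ * g₀ := by group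
      rw [e1] at h1
      exact h1
    · apply Subtype.ext
      show n₀ * (k : G) * g₀ * (g₀⁻¹ * (k : G)⁻¹ * g₀ * m₀) = g
      rw [e₀]
      group
    · rintro ⟨⟨⟨n, hn⟩, ⟨m, hm⟩⟩, hx⟩
      have hx' : n * g₀ * m = g := congrArg Subtype.val hx
      apply Subtype.ext
      refine Prod.ext (Subtype.ext ?_) (Subtype.ext ?_)
      · show n₀ * (n₀⁻¹ * n) = n
        group
      · show g₀⁻¹ * (n₀⁻¹ * n)⁻¹ * g₀ * m₀ = m
        have e2 : m = (n * g₀)⁻¹ * (n₀ * g₀ * m₀) := by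
          rw [← e₀, ← hx']
          group
        rw [e2]
        group
    · intro k
      apply Subtype.ext
      show n₀⁻¹ * (n₀ * (k : G)) = k
      group
  have h1 : Nat.card (N × T) = Nat.card (A × (N ⊓ cjS g₀ T : Subgroup G)) :=
    Nat.card_congr ((Equiv.sigmaFiberEquiv f).symm.trans ((Equiv.sigmaCongrRight fun a => (fib a).some).trans (Equiv.sigmaEquivProd _ _)))
  rw [Nat.card_prod, Nat.card_prod] at h1
  rw [h1, ← Nat.card_coe_set_eq]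

end Pool.Agent.L5
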